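import Pool.Agent.Helper20.CP.Spec

/-! The total mass of the model is one. -/

set_option autoImplicit false

open MeasureTheory ProbabilityTheory Filter Topology
open scoped ENNReal

namespace Pool.Agent.Helper15.CP.ONE

open Pool.Agent.Helper20.CP

theorem even_fixDeg {n : ℕ} (hn : 1 ≤ n) (d : Fin n → ℕ) : Even (∑ v, fixDeg d v) := by
  by_cases ho : Odd (∑ u, d u)
  · have h1 : ∀ v, fixDeg d v = d v + if v = (⟨n - 1, by omega⟩ : Fin n) then 1 else 0 := by
      intro v
      unfold fixDeg
      have : (v.val + 1 = n) ↔ v = (⟨n - 1, by omega⟩ : Fin n) := by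
        rw [Fin.ext_iff]
        simp only
        omega
      by_cases hv : v.val + 1 = n
      · rw [if_pos ⟨hv, ho⟩, if_pos (this.1 hv)]
      · rw [if_neg (fun h => hv h.1), if_neg (fun h => hv (this.2 h))]
        rfl
    simp only [h1]
    rw [Finset.sum_add_distrib, Finset.sum_ite_eq' Finset.univ, if_pos (Finset.mem_univ _)]
    exact ho.add_one
  · have h1 : ∀ v, fixDeg d v = d v := by
      intro v
      unfold fixDeg
      rw [if_neg (fun h => ho h.2)]
    simp only [h1]
    exact Nat.not_odd_iff_even.1 ho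

theorem main (hC : S_CARD) : S_ONE := by
  classical
  intro ν _ ρ _ n hn
  unfold Pr
  have h1 : ∀ d : Fin n → ℕ, avg (fun σ : Equiv.Perm (HE (fixDeg d)) =>
      (∑ r : Fin n, ∑ b : Fin n, WM ρ {w : Sym2 (HE (fixDeg d)) → ℝ × ℝ | True}) /
        ((n : ℝ≥0∞) * n)) = 1 := by
    intro d
    have hn0 : (n : ℝ≥0∞) ≠ 0 := by
      have : n ≠ 0 := by omega
      exact_mod_cast this
    have hnt : (n : ℝ≥0∞) ≠ ⊤ := ENNReal.natCast_ne_top n
    have hW : WM ρ {w : Sym2 (HE (fixDeg d)) → ℝ × ℝ | True} = 1 := by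
      have : {w : Sym2 (HE (fixDeg d)) → ℝ × ℝ | True} = Set.univ := by
        ext; simp
      rw [this]
      unfold WM
      exact measure_univ
    have hin : (∑ r : Fin n, ∑ b : Fin n, WM ρ {w : Sym2 (HE (fixDeg d)) → ℝ × ℝ | True}) /
        ((n : ℝ≥0∞) * n) = 1 := by
      rw [hW]
      simp only [Finset.sum_const, Finset.card_univ, Fintype.card_fin, nsmul_eq_mul, mul_one]
      exact ENNReal.div_self (mul_ne_zero hn0 hn0) (ENNReal.mul_ne_top hnt hnt)
    have hcard : (pairings (HE (fixDeg d))).card ≠ 0 := by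
      obtain ⟨c1, -, c3⟩ := hC (HE (fixDeg d)) Finset.univ
      rw [← c3]
      have hev : Even (Finset.univ : Finset (HE (fixDeg d))).card := by
        rw [Finset.card_univ, Fintype.card_sigma]
        simp only [Fintype.card_fin]
        exact even_fixDeg hn d
      rw [c1 hev]
      exact (Nat.doubleFactorial_pos _).ne'
    unfold avg
    rw [Finset.sum_congr rfl (fun σ _ => hin)]
    simp only [Finset.sum_const, nsmul_eq_mul, mul_one]
    refine ENNReal.div_self ?_ (ENNReal.natCast_ne_top _)
    exact_mod_cast hcard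
  simp only [h1]
  rw [lintegral_one]
  exact measure_univ

end Pool.Agent.Helper15.CP.ONE
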